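import Pool.Agent.H654R5.PT.Stm

/-!
# PAD: `addr` in polynomial time
-/

namespace Pool.Agent.H654R5.PT.PAD

open Pool.Agent.NPC

variable {α : Type} [TEnc α]

theorem take_poly {x : α → List Bool} {i : α → ℕ} (hx : NPC.Poly x) (hi : NPC.Poly i) :
    NPC.Poly (fun a => (x a).take (i a)) := by
  have h1 : UPoly (fun a => min (i a) (x a).length) :=
    UPoly.of_le (NPC.Poly.min hi (NPC.Poly.length hx)) (UPoly.length hx) fun a => min_le_right _ _
  refine (NPC.Poly.map (F := fun a j => (x a).getD j false) h1.range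
    (NPC.Poly.getD (hx.comp (NPC.Poly.fst NPC.Poly.id)) (NPC.Poly.snd NPC.Poly.id) (NPC.Poly.const false))).congr
    fun a => ?_
  apply List.ext_getElem
  · simp
  · intro n h2 h3
    simp only [List.length_map, List.length_range, lt_inf_iff] at h2
    simp [List.getD_eq_getElem?_getD, List.getElem?_eq_getElem h2.2]

theorem drop_poly {x : α → List Bool} {i : α → ℕ} (hx : NPC.Poly x) (hi : NPC.Poly i) :
    NPC.Poly (fun a => (x a).drop (i a)) := by
  have h1 : UPoly (fun a => (x a).length - i a) :=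
    UPoly.of_le (NPC.Poly.sub (NPC.Poly.length hx) hi) (UPoly.length hx) fun a => Nat.sub_le _ _
  refine (NPC.Poly.map (F := fun a j => (x a).getD (i a + j) false) h1.range
    (NPC.Poly.getD (hx.comp (NPC.Poly.fst NPC.Poly.id)) (NPC.Poly.add (hi.comp (NPC.Poly.fst NPC.Poly.id))
      (NPC.Poly.snd NPC.Poly.id)) (NPC.Poly.const false))).congr
    fun a => ?_
  apply List.ext_getElem
  · simp
  · intro n h2 h3
    simp only [List.length_map, List.length_range] at h2
    have h4 : i a + n < (x a).length := by omega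
    simp [List.getD_eq_getElem?_getD, List.getElem?_eq_getElem h4]

theorem replicate_poly {k : α → ℕ} (hk : UPoly k) (b : Bool) :
    NPC.Poly (fun a => List.replicate (k a) b) :=
  (NPC.Poly.map (F := fun _ _ => b) hk (NPC.Poly.const b)).congr fun a => by simp

theorem padTo_poly {k : α → ℕ} {x : α → List Bool} (hk : UPoly k) (hx : NPC.Poly x) :
    NPC.Poly (fun a => padTo (k a) (x a)) := by
  have h1 : UPoly (fun a => k a - (x a).length) :=
    UPoly.of_le (NPC.Poly.sub hk.toPoly (NPC.Poly.length hx)) hk fun a => Nat.sub_le _ _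
  exact NPC.Poly.append hx (replicate_poly h1 false)

theorem pow_poly {k : α → ℕ} (hk : UPoly k) : NPC.Poly (fun a => 2 ^ k a) :=
  (NPC.Poly.valBits (NPC.Poly.append (replicate_poly hk false) (NPC.Poly.const [true]))).congr fun a => by
    rw [valB_replicate_false]
    simp

theorem logPar_min {k l : α → ℕ} (hk : UPoly k) (hl : LogPar l) :
    LogPar (fun a => min (k a) (l a)) := by
  have h1 : UPoly (fun a => min (k a) (l a)) :=
    UPoly.of_le (NPC.Poly.min hk.toPoly hl.1.toPoly) hk fun a => min_le_left _ _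
  exact ⟨h1, UPoly.of_le (pow_poly h1) hl.2 fun a =>
    Nat.pow_le_pow_right (by norm_num) (min_le_right _ _)⟩

theorem logPar_comp {β : Type} [TEnc β] {k : α → ℕ} (hk : LogPar k) {f : β → α}
    (hf : NPC.Poly f) : LogPar (fun b => k (f b)) :=
  ⟨hk.1.comp hf, hk.2.comp hf⟩

theorem B0_upoly (h2 : S_PPA) {g ν : α → ℕ} (hg : LogPar g) (hν : UPoly ν) :
    UPoly (fun a => B0 (g a) (ν a)) := by
  obtain ⟨-, -, -, -, -, hdd, -, -, -, -, -, -, -, hK2⟩ := h2 g hg
  refine UPoly.of_le ?_ hν fun a => ?_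
  · unfold B0
    have hgp := hg.1.toPoly
    exact NPC.Poly.sub (NPC.Poly.sub (NPC.Poly.sub (NPC.Poly.sub (NPC.Poly.sub (NPC.Poly.sub hν.toPoly hgp)
      (NPC.Poly.const 4)) hK2.toPoly) hdd.toPoly) (NPC.Poly.mul (NPC.Poly.const 4) hgp)) (NPC.Poly.const 11)
  · unfold B0
    omega

theorem compo_poly (h2 : S_PPA) (h3 : S_PE1) (h4 : S_PES) {g ν : α → ℕ} {x : α → List Bool}
    (hg : LogPar g) (hν : UPoly ν) (hx : NPC.Poly x) :
    NPC.Poly (fun a => compo (g a) (ν a) (x a)) := by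
  unfold compo
  -- the contexts
  have f1 : NPC.Poly (fun p : α × ℕ => p.1) := NPC.Poly.fst NPC.Poly.id
  have s1 : NPC.Poly (fun p : α × ℕ => p.2) := NPC.Poly.snd NPC.Poly.id
  have f2 : NPC.Poly (fun p : (α × ℕ) × List Bool => p.1) := NPC.Poly.fst NPC.Poly.id
  have s2 : NPC.Poly (fun p : (α × ℕ) × List Bool => p.2) := NPC.Poly.snd NPC.Poly.id
  have f3 : NPC.Poly (fun p : ((α × ℕ) × List Bool) × List Bool => p.1) := NPC.Poly.fst NPC.Poly.id
  have s3 : NPC.Poly (fun p : ((α × ℕ) × List Bool) × List Bool => p.2) := NPC.Poly.snd NPC.Poly.id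
  have hg1 : LogPar (fun p : α × ℕ => g p.1) := logPar_comp hg f1
  have hg2 : LogPar (fun p : (α × ℕ) × List Bool => g p.1.1) := logPar_comp hg1 f2
  have hg3 : LogPar (fun p : ((α × ℕ) × List Bool) × List Bool => g p.1.1.1) := logPar_comp hg2 f3
  have hx1 : NPC.Poly (fun p : α × ℕ => x p.1) := hx.comp f1
  have hx2 : NPC.Poly (fun p : (α × ℕ) × List Bool => x p.1.1) := hx1.comp f2
  have hx3 : NPC.Poly (fun p : ((α × ℕ) × List Bool) × List Bool => x p.1.1.1) := hx2.comp f3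
  refine NPC.Poly.flatMap (F := fun a i =>
    (es (g a) (dd (g a)) (padTo (2 ^ g a) ((x a).drop i))).flatMap (fun s =>
      (es (g a) (tau2 (g a)) (x a)).map (fun z =>
        E1 (g a) (B0 (g a) (ν a)) (B0 (g a) (ν a) - 2) (padTo (2 ^ g a) ((x a).take i)) s ++ z)))
    hg.2.range ?_
  refine NPC.Poly.flatMap (F := fun (p : α × ℕ) s =>
      (es (g p.1) (tau2 (g p.1)) (x p.1)).map (fun z =>
        E1 (g p.1) (B0 (g p.1) (ν p.1)) (B0 (g p.1) (ν p.1) - 2)
          (padTo (2 ^ g p.1) ((x p.1).take p.2)) s ++ z)) ?_ ?_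
  · exact h4 (fun p : α × ℕ => g p.1) (fun p => dd (g p.1))
      (fun p => padTo (2 ^ g p.1) ((x p.1).drop p.2)) hg1 (h2 _ hg1).2.2.2.2.2.1
      (padTo_poly hg1.2 (drop_poly hx1 s1))
  · refine NPC.Poly.map (F := fun (p : (α × ℕ) × List Bool) z =>
        E1 (g p.1.1) (B0 (g p.1.1) (ν p.1.1)) (B0 (g p.1.1) (ν p.1.1) - 2)
          (padTo (2 ^ g p.1.1) ((x p.1.1).take p.1.2)) p.2 ++ z) ?_ ?_
    · exact h4 (fun p : (α × ℕ) × List Bool => g p.1.1) (fun p => tau2 (g p.1.1))
        (fun p => x p.1.1) hg2 (h2 _ hg2).2.2.2.2.2.2.2.2.2.2.2.2.1 hx2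
    · refine NPC.Poly.append ?_ s3
      have hB : UPoly (fun p : ((α × ℕ) × List Bool) × List Bool =>
          B0 (g p.1.1.1) (ν p.1.1.1)) :=
        B0_upoly h2 hg3 (((hν.comp f1).comp f2).comp f3)
      refine h3 (fun p : ((α × ℕ) × List Bool) × List Bool => g p.1.1.1)
        (fun p => B0 (g p.1.1.1) (ν p.1.1.1)) (fun p => B0 (g p.1.1.1) (ν p.1.1.1) - 2)
        (fun p => padTo (2 ^ g p.1.1.1) ((x p.1.1.1).take p.1.1.2)) (fun p => p.1.2) hg3 hB
        (UPoly.of_le (NPC.Poly.sub hB.toPoly (NPC.Poly.const 2)) hB fun a => Nat.sub_le _ _)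
        (padTo_poly hg3.2 (take_poly hx3 ((s1.comp f2).comp f3))) (s2.comp f3)

theorem PAD_proof (h1 : S_PST) (h2 : S_PPA) (h3 : S_PE1) (h4 : S_PES) : S_PAD := by
  intro α _ g ν x hg hν hx
  obtain ⟨-, -, -, -, -, -, -, -, -, -, hpad, hnu1, -, -⟩ := h2 g hg
  have hmain : NPC.Poly (fun a => mainPart (g a) (ν a) (x a)) := by
    unfold mainPart
    refine NPC.Poly.ite (NPC.Poly.decide_le hν.toPoly hnu1.toPoly) ?_ (compo_poly h2 h3 h4 hg hν hx)
    exact h4 g (fun a => ν a - padN (g a)) x hg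
      (UPoly.of_le (NPC.Poly.sub hν.toPoly hpad.1.toPoly) hν fun a => Nat.sub_le _ _) hx
  have hmin : NPC.Poly (fun a => allStr (min (ν a) (padN (g a)))) := h1 _ (logPar_min hν hpad)
  have hflat : NPC.Poly (fun a => (mainPart (g a) (ν a) (x a)).flatMap
      (fun z => (allStr (padN (g a))).map (fun s => z ++ s))) := by
    refine NPC.Poly.flatMap (F := fun a z => (allStr (padN (g a))).map (fun s => z ++ s)) hmain ?_
    refine NPC.Poly.map (F := fun (p : α × List Bool) s => p.2 ++ s)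
      ((h1 _ hpad).comp (NPC.Poly.fst NPC.Poly.id)) ?_
    exact NPC.Poly.append (NPC.Poly.snd (NPC.Poly.fst NPC.Poly.id)) (NPC.Poly.snd NPC.Poly.id)
  refine (NPC.Poly.ite (p := fun a => ν a ≤ padN (g a))
    (NPC.Poly.decide_le hν.toPoly hpad.1.toPoly) hmin hflat).congr fun a => ?_
  unfold addr
  by_cases h : ν a ≤ padN (g a)
  · rw [if_pos h, if_pos h, min_eq_left h]
  · rw [if_neg h, if_neg h]

end Pool.Agent.H654R5.PT.PAD
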